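import Pool.Agent.Lib_MP_aad2bd_co.Nice6
import Pool.Agent.Lib_MP_aad2bd_co.PartK
import Pool.Agent.Lib_MP_aad2bd_co.PartF

/-!
# MP_aad2bd_co, Q1: cancellation of the exponent of two powers of finite ordered sets

If `A`, `B`, `C` are finite ordered sets, `C` not empty, and each of the powers `A^C`, `B^C` can be
mapped one-to-one and order-preservingly into the other, then `A` and `B` are isomorphic.
-/

set_option autoImplicit false

namespace Pool.Agent.Results.MP_aad2bd_co.BaseCancellation

universe u v w

/-- The power `A^C`: the set of all functions `f` from `C` to `A` with `f x ≤ f y` whenever `x ≤ y`,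
with the pointwise order (`f ≤ g` iff `f x ≤ g x` for every `x` in `C`). -/
abbrev Power (A : Type u) (C : Type v) [PartialOrder A] [PartialOrder C] : Type (max u v) :=
  {f : C → A // ∀ x y : C, x ≤ y → f x ≤ f y}

/-- base cancellation in `Type` -/
theorem base (A B C : Type) [PartialOrder A] [PartialOrder B] [PartialOrder C]
    [Finite A] [Finite B] [Finite C] [Nonempty C] :
    Nonempty ((C →o A) ≃o (C →o B)) → Nonempty (A ≃o B) :=
  Pool.Agent.Birk.final_assembly
    (Pool.Agent.Birk.K2_of_caseII
      (fun _ _ _ _ _ _ _ _ _ _ _ _ _ _ hC hirr hn htop hbot hA hB he b =>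
        Pool.Agent.Birk.Pow.caseII hC hirr hn htop hbot hA hB he b)) A B C

/-- a finite ordered set has a copy in `Type` -/
theorem exists_copy (A : Type u) [PartialOrder A] [Finite A] :
    ∃ (A' : Type) (_ : PartialOrder A') (_ : Finite A'), Nonempty (A ≃o A') := by
  obtain ⟨n, ⟨e⟩⟩ := Finite.exists_equiv_fin A
  refine ⟨Fin n, PartialOrder.lift e.symm e.symm.injective, inferInstance, ⟨?_⟩⟩
  letI : PartialOrder (Fin n) := PartialOrder.lift e.symm e.symm.injective
  exact { toEquiv := e, map_rel_iff' := by
            intro a b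
            change e.symm (e a) ≤ e.symm (e b) ↔ a ≤ b
            rw [e.symm_apply_apply, e.symm_apply_apply] }

/-- isomorphic data have isomorphic powers -/
def powerCongr {A : Type u} {A' : Type v} {C : Type w} {C' : Type} [PartialOrder A]
    [PartialOrder A'] [PartialOrder C] [PartialOrder C'] (e : A ≃o A') (c : C ≃o C') :
    Power A C ≃o (C' →o A') where
  toFun f := ⟨fun x => e (f.1 (c.symm x)), fun x y h =>
    e.monotone (f.2 _ _ (c.symm.monotone h))⟩
  invFun g := ⟨fun x => e.symm (g (c x)), fun x y h =>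
    e.symm.monotone (g.monotone (c.monotone h))⟩
  left_inv f := by
    apply Subtype.ext
    funext x
    change e.symm (e (f.1 (c.symm (c x)))) = f.1 x
    rw [e.symm_apply_apply, c.symm_apply_apply]
  right_inv g := by
    apply OrderHom.ext
    funext x
    change e (e.symm (g (c (c.symm x)))) = g x
    rw [e.apply_symm_apply, c.apply_symm_apply]
  map_rel_iff' := by
    intro f g
    constructor
    · intro h x
      have := h (c x)
      change e (f.1 (c.symm (c x))) ≤ e (g.1 (c.symm (c x))) at this
      rw [c.symm_apply_apply] at this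
      exact e.le_iff_le.1 this
    · intro h x
      change e (f.1 (c.symm x)) ≤ e (g.1 (c.symm x))
      exact e.le_iff_le.2 (h (c.symm x))

/-- two finite ordered sets with one-to-one order-preserving maps in both directions are
isomorphic -/
theorem iso_of_injective_monotone {P : Type u} {Q : Type v} [PartialOrder P] [PartialOrder Q]
    [Finite P] [Finite Q] {φ : P → Q} {ψ : Q → P} (hφ : Function.Injective φ) (mφ : Monotone φ)
    (hψ : Function.Injective ψ) (mψ : Monotone ψ) : Nonempty (P ≃o Q) := by
  classical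
  have hg : Function.Injective (ψ ∘ φ) := hψ.comp hφ
  have mg : Monotone (ψ ∘ φ) := mψ.comp mφ
  have hb : Function.Bijective (ψ ∘ φ) := Finite.injective_iff_bijective.1 hg
  have hψs : Function.Surjective ψ := fun p => by
    obtain ⟨a, ha⟩ := hb.2 p
    exact ⟨φ a, ha⟩
  have hφs : Function.Surjective φ := fun q => by
    obtain ⟨a, ha⟩ := hb.2 (ψ q)
    exact ⟨a, hψ ha⟩
  have hback : ∀ x y, φ x ≤ φ y → x ≤ y := by
    intro x y hxy
    let σ : Equiv.Perm P := Equiv.ofBijective _ hb
    obtain ⟨n, hn, hσ⟩ : ∃ n, 0 < n ∧ σ ^ n = 1 :=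
      ⟨orderOf σ, orderOf_pos σ, pow_orderOf_eq_one σ⟩
    obtain ⟨m, rfl⟩ : ∃ m, n = m + 1 := ⟨n - 1, by omega⟩
    have hmono : ∀ k : ℕ, Monotone ((σ ^ k : Equiv.Perm P) : P → P) := by
      intro k
      induction k with
      | zero => exact monotone_id
      | succ k ih =>
        rw [pow_succ, Equiv.Perm.coe_mul]
        exact ih.comp mg
    have h1 : σ x ≤ σ y := mψ hxy
    have h2 := hmono m h1
    have h3 : ∀ z, (σ ^ m) (σ z) = z := by
      intro z
      rw [← Equiv.Perm.mul_apply, ← pow_succ, hσ]
      rfl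
    rwa [h3, h3] at h2
  exact ⟨{ toEquiv := Equiv.ofBijective φ ⟨hφ, hφs⟩
           map_rel_iff' := fun {a b} => ⟨hback a b, fun h => mφ h⟩ }⟩

/-- Let `A`, `B`, `C` be finite ordered sets (in any universes), `C` not empty. There are one-to-one
order-preserving maps from `A^C` to `B^C` and from `B^C` to `A^C` if and only if `A` and `B` are
isomorphic. -/
theorem result (A : Type u) (B : Type v) (C : Type w) [PartialOrder A] [PartialOrder B]
    [PartialOrder C] [Finite A] [Finite B] [Finite C] [Nonempty C] :
    (∃ (φ : Power A C → Power B C) (ψ : Power B C → Power A C),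
      Function.Injective φ ∧ Monotone φ ∧ Function.Injective ψ ∧ Monotone ψ) ↔
      Nonempty (A ≃o B) := by
  constructor
  · rintro ⟨φ, ψ, hφ, mφ, hψ, mψ⟩
    obtain ⟨e⟩ := iso_of_injective_monotone hφ mφ hψ mψ
    obtain ⟨A', iA, fA, ⟨eA⟩⟩ := exists_copy A
    obtain ⟨B', iB, fB, ⟨eB⟩⟩ := exists_copy B
    obtain ⟨C', iC, fC, ⟨eC⟩⟩ := exists_copy C
    have : Nonempty C' := ⟨eC (Classical.arbitrary C)⟩
    obtain ⟨f⟩ := base A' B' C' ⟨(powerCongr eA eC).symm.trans (e.trans (powerCongr eB eC))⟩
    exact ⟨eA.trans (f.trans eB.symm)⟩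
  · rintro ⟨e⟩
    refine ⟨fun f => ⟨fun x => e (f.1 x), fun x y h => e.monotone (f.2 x y h)⟩,
      fun g => ⟨fun x => e.symm (g.1 x), fun x y h => e.symm.monotone (g.2 x y h)⟩, ?_, ?_, ?_, ?_⟩
    · intro f g h
      apply Subtype.ext
      funext x
      exact e.injective (congrFun (congrArg Subtype.val h) x)
    · intro f g h x
      exact e.monotone (h x)
    · intro f g h
      apply Subtype.ext
      funext x
      exact e.symm.injective (congrFun (congrArg Subtype.val h) x)
    · intro f g h x
      exact e.symm.monotone (h x)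

end Pool.Agent.Results.MP_aad2bd_co.BaseCancellation
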